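import Mathlib
import Pool.Agent.W154.STK.QC
import Pool.Agent.W154.STK.ExLim
import Pool.Agent.W154.STK.Pad

/-!
# A graph of type STK exists

Nagy's question: is there a graph `G` whose number of copies is asymptotically maximised by
quasi-stars at small edge densities, by the intermediate graphs `T_n^e(t)`, `0 < t < 1`, at medium
densities and by quasi-cliques at large densities?  We prove that the disjoint union
`K_{2,8} ∪ K_{8,8}` is such a graph.
-/

set_option autoImplicit false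

namespace Pool.Agent.Results.MP_8790d8_co.STKExists

open Filter Asymptotics Topology

variable {V : Type} [Fintype V]

/-- `ex(n,e,G)`: the largest number of (unlabelled) copies of `G` in a graph with `n` vertices and
at most `e` edges. -/
noncomputable def ex (n e : ℕ) (G : SimpleGraph V) : ℕ :=
  sSup {N : ℕ | ∃ H : SimpleGraph (Fin n), H.edgeSet.ncard ≤ e ∧ N = H.copyCount G}

/-- The sequence `H n` of graphs on `n` vertices is an asymptotic maximiser for `G` at edge density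
`β`: `2 e(H_n) / n² = β + O(1/n)` and `N(G, H_n) = (1 + o(1)) ex(n, ⌊β n² / 2⌋, G)`. -/
def IsAsympMaximiser (G : SimpleGraph V) (β : ℝ) (H : ∀ n : ℕ, SimpleGraph (Fin n)) : Prop :=
  ((fun n : ℕ => 2 * ((H n).edgeSet.ncard : ℝ) / (n : ℝ) ^ 2 - β) =O[atTop]
    fun n : ℕ => 1 / (n : ℝ)) ∧
  ((fun n : ℕ => (((H n).copyCount G : ℕ) : ℝ)) ~[atTop]
    fun n : ℕ => ((ex n ⌊β * (n : ℝ) ^ 2 / 2⌋₊ G : ℕ) : ℝ))

/-- The quasi-clique `K_n^e` on the vertex set `{0, …, n-1}`: its edges are the first `e` pairs in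
the colexicographic order, i.e. (see `quasiClique_adj`) if `e = C(a,2) + b` with `0 ≤ b < a`, then
`0, …, a-1` form a clique, `a` is joined to `0, …, b-1`, and there are no other edges.
(For `e ≥ C(n,2)` it is the complete graph.) -/
def quasiClique (n e : ℕ) : SimpleGraph (Fin n) where
  Adj i j := i ≠ j ∧ (max i.val j.val).choose 2 + min i.val j.val < e
  symm := ⟨fun _ _ h => ⟨h.1.symm, by rw [max_comm, min_comm]; exact h.2⟩⟩
  loopless := ⟨fun _ h => h.1 rfl⟩

/-- The quasi-star `S_n^e`: the complement of the quasi-clique with `C(n,2) - e` edges. -/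
def quasiStar (n e : ℕ) : SimpleGraph (Fin n) := (quasiClique n (n.choose 2 - e))ᶜ

/-- `|R| = (1 - √(1 - β (1 - q²))) n`, rounded down. -/
noncomputable def sizeR (β q : ℝ) (n : ℕ) : ℕ := ⌊(1 - √(1 - β * (1 - q ^ 2))) * n⌋₊

/-- `|B| = (√(1 - β (1 - q²)) - √β q) n`, rounded down. -/
noncomputable def sizeB (β q : ℝ) (n : ℕ) : ℕ := ⌊(√(1 - β * (1 - q ^ 2)) - √β * q) * n⌋₊

/-- The graph `T_n^e(q)`, `e = β n² / 2`: the first `|R|` vertices form the set `R`, the next `|B|`
vertices form `B` and the remaining `n - |R| - |B|` vertices form `Y`.  Vertices of `R` are adjacent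
to all vertices, `Y` is a clique, and there are no other edges. -/
def tGraph (β q : ℝ) (n : ℕ) : SimpleGraph (Fin n) where
  Adj i j := i ≠ j ∧ ((i.val < sizeR β q n ∨ j.val < sizeR β q n) ∨
    (sizeR β q n + sizeB β q n ≤ i.val ∧ sizeR β q n + sizeB β q n ≤ j.val))
  symm := ⟨fun _ _ h => ⟨h.1.symm, h.2.imp Or.symm And.symm⟩⟩
  loopless := ⟨fun _ h => h.1 rfl⟩

/-- `G` is of type STK. -/
def IsTypeSTK (G : SimpleGraph V) : Prop :=
  ∃ γ δ : ℝ, 0 < γ ∧ γ < δ ∧ δ < 1 ∧
    (∀ β ∈ Set.Icc 0 γ,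
      IsAsympMaximiser G β fun n => quasiStar n ⌊β * (n : ℝ) ^ 2 / 2⌋₊) ∧
    (∀ β ∈ Set.Icc γ δ, ∃ t ∈ Set.Ioo (0 : ℝ) 1,
      IsAsympMaximiser G β fun n => tGraph β t n) ∧
    (∀ β ∈ Set.Icc δ 1,
      IsAsympMaximiser G β fun n => quasiClique n ⌊β * (n : ℝ) ^ 2 / 2⌋₊) ∧
    (∀ β ∈ Set.Ioo γ δ,
      ¬ IsAsympMaximiser G β (fun n => quasiStar n ⌊β * (n : ℝ) ^ 2 / 2⌋₊) ∧
      ¬ IsAsympMaximiser G β (fun n => quasiClique n ⌊β * (n : ℝ) ^ 2 / 2⌋₊))

/-- The disjoint union of the complete bipartite graphs `K_{2,8}` and `K_{8,8}`. -/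
def G₀ : SimpleGraph ((Fin 2 ⊕ Fin 8) ⊕ (Fin 8 ⊕ Fin 8)) :=
  completeBipartiteGraph (Fin 2) (Fin 8) ⊕g completeBipartiteGraph (Fin 8) (Fin 8)

/-- The quasi-clique is the graph of the usual description. -/
theorem quasiClique_adj {n a b : ℕ} (hb : b < a) (i j : Fin n) :
    (quasiClique n (a.choose 2 + b)).Adj i j ↔
      i ≠ j ∧ (max i.val j.val < a ∨ (max i.val j.val = a ∧ min i.val j.val < b)) := by
  show i ≠ j ∧ _ ↔ _
  refine and_congr_right fun hij => ?_
  have hne : i.val ≠ j.val := fun h => hij (Fin.ext h)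
  have hlt : min i.val j.val < max i.val j.val := by
    rcases lt_or_gt_of_ne hne with h | h
    · rw [min_eq_left h.le, max_eq_right h.le]; exact h
    · rw [min_eq_right h.le, max_eq_left h.le]; exact h
  generalize max i.val j.val = M at *
  generalize min i.val j.val = m at *
  constructor
  · intro h
    rcases lt_trichotomy M a with h1 | h1 | h1
    · exact Or.inl h1
    · right; subst h1; exact ⟨rfl, by omega⟩
    · exfalso
      have h2 : (a + 1).choose 2 ≤ M.choose 2 := Nat.choose_le_choose 2 h1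
      have h3 : (a + 1).choose 2 = a + a.choose 2 := by
        rw [Nat.choose_succ_succ' a 1, Nat.choose_one_right]
      omega
  · rintro (h | ⟨h1, h2⟩)
    · have h2 : (M + 1).choose 2 ≤ a.choose 2 := Nat.choose_le_choose 2 h
      have h3 : (M + 1).choose 2 = M + M.choose 2 := by
        rw [Nat.choose_succ_succ' M 1, Nat.choose_one_right]
      omega
    · subst h1; omega

/-! ### The extremal number -/

omit [Fintype V] in
theorem ex_spec (n e : ℕ) (G : SimpleGraph V) :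
    (∃ H : SimpleGraph (Fin n), H.edgeSet.ncard ≤ e ∧ ex n e G = H.copyCount G) ∧
    ∀ H : SimpleGraph (Fin n), H.edgeSet.ncard ≤ e → H.copyCount G ≤ ex n e G := by
  have hfin : {N : ℕ | ∃ H : SimpleGraph (Fin n), H.edgeSet.ncard ≤ e ∧ N = H.copyCount G}.Finite := by
    refine (Set.finite_range (fun H : SimpleGraph (Fin n) => H.copyCount G)).subset ?_
    rintro N ⟨H, _, rfl⟩
    exact ⟨H, rfl⟩
  have hne : {N : ℕ | ∃ H : SimpleGraph (Fin n), H.edgeSet.ncard ≤ e ∧ N = H.copyCount G}.Nonempty :=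
    ⟨_, ⊥, by simp, rfl⟩
  exact ⟨Nat.sSup_mem hne hfin.bddAbove, fun H hH => le_csSup hfin.bddAbove ⟨H, hH, rfl⟩⟩

open Pool.Agent.H488R3 Pool.Agent.W154.STK

theorem G₀_eq : G₀ = GG := rfl

theorem dens_isBigO {β K : ℝ} {H : ∀ n : ℕ, SimpleGraph (Fin n)}
    (h : ∀ n : ℕ, 0 < n → |ed n (H n) - β| ≤ K / n) :
    (fun n : ℕ => 2 * ((H n).edgeSet.ncard : ℝ) / (n : ℝ) ^ 2 - β) =O[atTop]
      fun n : ℕ => 1 / (n : ℝ) := by
  refine IsBigO.of_bound K ?_
  filter_upwards [eventually_gt_atTop 0] with n hn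
  have h1 := h n hn
  rw [ed_ncard] at h1
  rw [Real.norm_eq_abs, Real.norm_eq_abs, abs_of_nonneg (by positivity : 0 ≤ 1 / (n:ℝ))]
  calc _ ≤ K / n := h1
    _ = _ := by ring

/-- the criterion: compare with the maximum over the `T`-weights -/
theorem asymp_iff {β z r t K : ℝ} (hβ0 : 0 < β) (hβ : β ≤ 1) (hon : On β z r)
    (hmax : ∀ z' r', On β z' r' → Fp z' r' ≤ Fp z r) {H : ∀ n : ℕ, SimpleGraph (Fin n)}
    (ht : Tendsto (fun n => cd GG n (H n)) atTop (𝓝 t))
    (hd : ∀ n : ℕ, 0 < n → |ed n (H n) - β| ≤ K / n) :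
    IsAsympMaximiser G₀ β H ↔ t = Fp z r := by
  have hF : 0 < Fp z r := by
    have h1 := hmax _ _ (on_zero hβ0.le hβ)
    rw [Fp_zero] at h1
    have h2 := (on_zero hβ0.le hβ).2.2.2
    rw [h2] at h1
    exact lt_of_lt_of_le (by positivity) h1
  have hex := ex_lim hβ0 hβ hon hmax (E := fun n => ex n ⌊β * (n : ℝ) ^ 2 / 2⌋₊ G₀)
    (fun n => (ex_spec n _ G₀).1) (fun n => (ex_spec n _ G₀).2)
  have hpos : ∀ᶠ n : ℕ in atTop, ((ex n ⌊β * (n : ℝ) ^ 2 / 2⌋₊ G₀ : ℕ) : ℝ) ≠ 0 := by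
    filter_upwards [hex.eventually_const_lt hF] with n hn h0
    rw [h0] at hn
    simp at hn
  have hratio : Tendsto ((fun n : ℕ => (((H n).copyCount G₀ : ℕ) : ℝ)) /
      fun n : ℕ => ((ex n ⌊β * (n : ℝ) ^ 2 / 2⌋₊ G₀ : ℕ) : ℝ)) atTop (𝓝 (t / Fp z r)) := by
    refine (ht.div hex hF.ne').congr' ?_
    filter_upwards [eventually_gt_atTop 0, hpos] with n hn hp
    have hcard : Fintype.card ((Fin 2 ⊕ Fin 8) ⊕ (Fin 8 ⊕ Fin 8)) = 26 := by simp
    have hA : (Nat.card (GG ≃g GG) : ℝ) ≠ 0 := by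
      have := aut_pos GG
      positivity
    have hn' : (n : ℝ) ≠ 0 := by positivity
    simp only [Pi.div_apply]
    unfold cd
    rw [hcard, G₀_eq]
    rw [G₀_eq] at hp
    field_simp
  unfold IsAsympMaximiser
  rw [isEquivalent_iff_tendsto_one hpos]
  constructor
  · rintro ⟨_, h⟩
    have := tendsto_nhds_unique hratio h
    rwa [div_eq_one_iff_eq hF.ne'] at this
  · intro h
    refine ⟨dens_isBigO hd, ?_⟩
    rw [h, div_self hF.ne'] at hratio
    exact hratio

/-! ### The three families -/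

theorem quasiClique_lim {β : ℝ} (h0 : 0 ≤ β) (h1 : β ≤ 1) :
    Tendsto (fun n : ℕ => cd GG n (quasiClique n ⌊β * (n : ℝ) ^ 2 / 2⌋₊)) atTop (𝓝 (β ^ 13)) ∧
    ∀ n : ℕ, 0 < n → |ed n (quasiClique n ⌊β * (n : ℝ) ^ 2 / 2⌋₊) - β| ≤ (12 * 5 + 4) / n := by
  have hs0 : 0 ≤ √β := Real.sqrt_nonneg _
  have hs1 : √β ≤ 1 := Real.sqrt_le_one.2 h1
  have hw : ∀ c, |wK (√β) c| ≤ 1 := by
    intro c
    rw [abs_le]
    cases c <;> simp only [wK] <;> constructor <;> linarith
  have hsum : wK (√β) .Y + wK (√β) .R + wK (√β) .B = 1 := by simp only [wK]; ring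
  have ht : tval GG (wK (√β)) = β ^ 13 := by
    rw [tval_GG _ hsum]
    simp only [wK, add_zero]
    rw [Fp_zero, (on_zero h0 h1).2.2.2]
  have he : egy (wK (√β)) = β := by
    rw [egy_eq _ hsum]
    simp only [wK, add_zero]
    exact (on_zero h0 h1).2.2.2
  have hs := fun n : ℕ => sqrt_closeK h0 n
  have := sandwich GG (H := fun n => quasiClique n ⌊β * (n : ℝ) ^ 2 / 2⌋₊)
    (lo := fun n => clK (Nat.sqrt (2 * ⌊β * (n:ℝ) ^ 2 / 2⌋₊)) n)
    (hi := fun n => clK (Nat.sqrt (2 * ⌊β * (n:ℝ) ^ 2 / 2⌋₊) + 2) n) (w := wK (√β)) (K := 5) hw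
    ?_ ?_ ?_ ?_
  · rw [ht, he] at this
    exact this
  · intro n i j hij
    obtain ⟨hne, hok⟩ := hij
    refine ⟨hne, ?_⟩
    have hne' : i.val ≠ j.val := fun h => hne (Fin.ext h)
    have h2 : i.val < Nat.sqrt (2 * ⌊β * (n:ℝ) ^ 2 / 2⌋₊) ∧ j.val < Nat.sqrt (2 * ⌊β * (n:ℝ) ^ 2 / 2⌋₊) := by
      unfold clK at hok
      split_ifs at hok with g1 g2 g2
      · exact ⟨g1, g2⟩
      · exact hok.elim
      · exact hok.elim
      · exact hok.elim
    exact colex_lo (min_lt_max.2 hne') (max_lt h2.1 h2.2)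
  · intro n i j hij
    obtain ⟨hne, hlt⟩ := hij
    refine ⟨hne, ?_⟩
    have h2 := colex_hi hlt
    have h3 : i.val < Nat.sqrt (2 * ⌊β * (n:ℝ) ^ 2 / 2⌋₊) + 2 := lt_of_le_of_lt (le_max_left _ _) h2
    have h4 : j.val < Nat.sqrt (2 * ⌊β * (n:ℝ) ^ 2 / 2⌋₊) + 2 := lt_of_le_of_lt (le_max_right _ _) h2
    unfold clK
    rw [if_pos h3, if_pos h4]
    trivial
  · intro n hn c
    apply closeK hn hs1
    have := hs n
    rw [abs_le] at this ⊢
    constructor <;> linarith
  · intro n hn c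
    apply closeK hn hs1
    have := hs n
    push_cast
    rw [abs_le] at this ⊢
    constructor <;> linarith

theorem quasiStar_lim {β : ℝ} (h0 : 0 ≤ β) (h1 : β < 1) : ∃ K : ℝ,
    Tendsto (fun n : ℕ => cd GG n (quasiStar n ⌊β * (n : ℝ) ^ 2 / 2⌋₊)) atTop
      (𝓝 (Fp (1 - √(1 - β)) (1 - √(1 - β)))) ∧
    ∀ n : ℕ, 0 < n → |ed n (quasiStar n ⌊β * (n : ℝ) ^ 2 / 2⌋₊) - β| ≤ K / n := by
  set s := √(1 - β) with hs
  have hs0 : 0 ≤ s := Real.sqrt_nonneg _
  have hs1 : s ≤ 1 := Real.sqrt_le_one.2 (by linarith)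
  have hs2 : s ^ 2 = 1 - β := Real.sq_sqrt (by linarith)
  have hw : ∀ c, |wS s c| ≤ 1 := by
    intro c
    rw [abs_le]
    cases c <;> simp only [wS] <;> constructor <;> linarith
  have hsum : wS s .Y + wS s .R + wS s .B = 1 := by simp only [wS]; ring
  have ht : tval GG (wS s) = Fp (1 - s) (1 - s) := by
    rw [tval_GG _ hsum]
    simp only [wS, zero_add]
  have he : egy (wS s) = β := by
    rw [egy_eq _ hsum]
    simp only [wS, zero_add]
    unfold be
    linarith
  obtain ⟨K, hK0, hK⟩ := sqrt_closeS h0 h1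
  rw [← hs] at hK
  refine ⟨12 * (K + 2) + 4, ?_⟩
  have := sandwich GG (H := fun n => quasiStar n ⌊β * (n : ℝ) ^ 2 / 2⌋₊)
    (lo := fun n => clS (Nat.sqrt (2 * (n.choose 2 - ⌊β * (n:ℝ) ^ 2 / 2⌋₊)) + 2) n)
    (hi := fun n => clS (Nat.sqrt (2 * (n.choose 2 - ⌊β * (n:ℝ) ^ 2 / 2⌋₊))) n)
    (w := wS s) (K := K + 2) hw ?_ ?_ ?_ ?_
  · rw [ht, he] at this
    exact this
  · intro n i j hij
    obtain ⟨hne, hok⟩ := hij
    rw [quasiStar, SimpleGraph.compl_adj]
    refine ⟨hne, ?_⟩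
    rintro ⟨_, hlt⟩
    have h2 := colex_hi hlt
    have h3 := lt_of_le_of_lt (le_max_left i.val j.val) h2
    have h4 := lt_of_le_of_lt (le_max_right i.val j.val) h2
    unfold clS at hok
    rw [if_pos h3, if_pos h4] at hok
    exact hok
  · intro n i j hij
    rw [quasiStar, SimpleGraph.compl_adj] at hij
    obtain ⟨hne, hnot⟩ := hij
    refine ⟨hne, ?_⟩
    have hne' : i.val ≠ j.val := fun h => hne (Fin.ext h)
    unfold clS
    split_ifs with g1 g2 g2
    · exact hnot ⟨hne, colex_lo (min_lt_max.2 hne') (max_lt g1 g2)⟩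
    · trivial
    · trivial
    · trivial
  · intro n hn c
    apply closeS hn hs1
    have := hK n
    push_cast
    rw [abs_le] at this ⊢
    constructor <;> linarith
  · intro n hn c
    apply closeS hn hs1
    have := hK n
    rw [abs_le] at this ⊢
    constructor <;> linarith

theorem floor_close {x : ℝ} (hx : 0 ≤ x) {n : ℕ} (hn : 0 < n) :
    |(⌊x * n⌋₊ : ℝ) / n - x| ≤ 1 / n := by
  have hn' : (0:ℝ) < n := by exact_mod_cast hn
  have h1 : (⌊x * n⌋₊ : ℝ) ≤ x * n := Nat.floor_le (by positivity)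
  have h2 : x * n < ⌊x * n⌋₊ + 1 := Nat.lt_floor_add_one _
  have h3 : (⌊x * n⌋₊ : ℝ) / n - x = (⌊x * n⌋₊ - x * n) / n := by field_simp
  rw [h3, abs_div, abs_of_pos hn']
  apply div_le_div_of_nonneg_right _ hn'.le
  rw [abs_le]; constructor <;> linarith

theorem tGraph_lim {β z r : ℝ} (hβ : 0 < β) (hon : On β z r) (hr : 0 < r)
    (hrz : r < z) : ∃ t ∈ Set.Ioo (0:ℝ) 1, ∃ K : ℝ,
    Tendsto (fun n : ℕ => cd GG n (tGraph β t n)) atTop (𝓝 (Fp z r)) ∧
    ∀ n : ℕ, 0 < n → |ed n (tGraph β t n) - β| ≤ K / n := by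
  obtain ⟨hw, he, ht⟩ := wzr_mem hon
  obtain ⟨a0, a1, a2, a3⟩ := hon
  have hsβ : 0 < √β := Real.sqrt_pos.2 hβ
  have hsq : √β ^ 2 = β := Real.sq_sqrt hβ.le
  have hkey : (z - r) ^ 2 = β - (2 * r - r ^ 2) := by
    rw [← a3]; unfold be; ring
  have hr2 : 0 < 2 * r - r ^ 2 := by
    have : 2 * r - r ^ 2 = r * (2 - r) := by ring
    rw [this]; exact mul_pos hr (by linarith)
  set q := (z - r) / √β with hq
  have hq1 : √β * q = z - r := by rw [hq]; field_simp
  have hq2 : β * (1 - q ^ 2) = 2 * r - r ^ 2 := by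
    have : β * q ^ 2 = (z - r) ^ 2 := by rw [← hq1, mul_pow, hsq]
    linarith
  have hq3 : √(1 - β * (1 - q ^ 2)) = 1 - r := by
    rw [hq2]
    have : 1 - (2 * r - r ^ 2) = (1 - r) ^ 2 := by ring
    rw [this, Real.sqrt_sq (by linarith)]
  have hqpos : 0 < q := by rw [hq]; exact div_pos (by linarith) hsβ
  have hqlt : q < 1 := by
    rw [hq, div_lt_one hsβ]
    apply lt_of_pow_lt_pow_left₀ 2 hsβ.le
    rw [hsq, hkey]; linarith
  refine ⟨q, ⟨hqpos, hqlt⟩, 12 * 2 + 4, ?_⟩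
  have hR : ∀ n : ℕ, sizeR β q n = ⌊wzr z r .R * n⌋₊ := by
    intro n
    unfold sizeR
    rw [hq3]
    simp only [wzr]
    congr 2; ring
  have hB : ∀ n : ℕ, sizeB β q n = ⌊wzr z r .B * n⌋₊ := by
    intro n
    unfold sizeB
    rw [hq3, hq1]
    simp only [wzr]
    congr 2; ring
  have hG : ∀ n : ℕ, tGraph β q n = HG (clN (wzr z r) n) := by
    intro n
    ext i j
    show i ≠ j ∧ _ ↔ i ≠ j ∧ _
    refine and_congr_right fun _ => ?_
    unfold clN
    rw [← hR n, ← hB n]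
    generalize sizeR β q n = a
    generalize sizeB β q n = b
    by_cases h1 : i.val < a
    · rw [if_pos h1]
      simp only [h1, true_or, true_iff]
      split_ifs <;> trivial
    · by_cases h2 : j.val < a
      · rw [if_neg h1, if_pos h2]
        simp only [h2, or_true, true_or, true_iff]
        split_ifs <;> trivial
      · rw [if_neg h1, if_neg h2]
        by_cases h3 : i.val < a + b
        · rw [if_pos h3]
          have : ¬ (a + b ≤ i.val) := by omega
          simp only [h1, h2, this, false_and, or_false, false_iff]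
          split_ifs <;> simp [Cls.ok]
        · by_cases h4 : j.val < a + b
          · rw [if_neg h3, if_pos h4]
            have : ¬ (a + b ≤ j.val) := by omega
            simp only [h1, h2, this, and_false, or_false, false_iff]
            simp [Cls.ok]
          · rw [if_neg h3, if_neg h4]
            have h5 : a + b ≤ i.val := by omega
            have h6 : a + b ≤ j.val := by omega
            simp only [h5, h6, and_true, or_true, true_iff]
            trivial
  have hcnt : ∀ n : ℕ, 0 < n → ∀ c, |cnt (clN (wzr z r) n) c / (n : ℝ) - wzr z r c| ≤ 2 / n := by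
    intro n hn c
    have hn' : (0:ℝ) < n := by exact_mod_cast hn
    have f1 := floor_close (hw.1 .R) hn
    have f2 := floor_close (hw.1 .B) hn
    have h12 : (1:ℝ) / n ≤ 2 / n := div_le_div_of_nonneg_right (by norm_num) hn'.le
    cases c
    · rw [cnt_Y hw]
      have h3 : ((n:ℝ) - (⌊wzr z r .R * n⌋₊ : ℝ) - (⌊wzr z r .B * n⌋₊ : ℝ)) / n - wzr z r .Y =
          -(((⌊wzr z r .R * n⌋₊ : ℝ) / n - wzr z r .R) + ((⌊wzr z r .B * n⌋₊ : ℝ) / n - wzr z r .B)) := by
        have h4 : wzr z r .Y = 1 - wzr z r .R - wzr z r .B := by linarith [hw.2]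
        rw [h4]; field_simp; ring
      rw [h3, abs_neg]
      have h5 : (2:ℝ) / n = 1 / n + 1 / n := by ring
      rw [h5]
      exact (abs_add_le _ _).trans (add_le_add f1 f2)
    · rw [cnt_R hw]; exact f1.trans h12
    · rw [cnt_B hw]; exact f2.trans h12
  have hle : ∀ c, |wzr z r c| ≤ 1 := by
    intro c
    rw [abs_le]
    cases c <;> simp only [wzr] <;> constructor <;> linarith
  have := sandwich GG (H := fun n => tGraph β q n) (lo := fun n => clN (wzr z r) n)
    (hi := fun n => clN (wzr z r) n) (w := wzr z r) (K := 2) hle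
    (fun n => (hG n).ge) (fun n => (hG n).le) hcnt hcnt
  rw [ht, he] at this
  exact this

/-! ### Density zero -/

theorem zero_case : IsAsympMaximiser G₀ 0 fun n => quasiStar n ⌊(0:ℝ) * (n : ℝ) ^ 2 / 2⌋₊ := by
  have hz : ∀ n : ℕ, ⌊(0:ℝ) * (n : ℝ) ^ 2 / 2⌋₊ = 0 := by intro n; simp
  have hbot : ∀ n : ℕ, quasiStar n 0 = ⊥ := by
    intro n
    rw [quasiStar, Nat.sub_zero]
    rw [compl_eq_bot]
    ext i j
    rw [SimpleGraph.top_adj]
    constructor
    · exact fun h => h.1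
    · intro hij
      refine ⟨hij, ?_⟩
      have hne' : i.val ≠ j.val := fun h => hij (Fin.ext h)
      have h1 : min i.val j.val < max i.val j.val := min_lt_max.2 hne'
      have h2 : max i.val j.val + 1 ≤ n := max_lt i.isLt j.isLt
      have h3 : (max i.val j.val + 1).choose 2 ≤ n.choose 2 := Nat.choose_le_choose 2 h2
      have h4 : (max i.val j.val + 1).choose 2 = max i.val j.val + (max i.val j.val).choose 2 := by
        rw [Nat.choose_succ_succ' _ 1, Nat.choose_one_right]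
      omega
  have hzero : ∀ n : ℕ, 0 < n → ∀ H : SimpleGraph (Fin n), H.edgeSet.ncard ≤ 0 →
      H.copyCount G₀ = 0 := by
    intro n hn H hH
    have hn' : (0:ℝ) < n := by exact_mod_cast hn
    have h1 : ed n H ≤ 0 := by
      rw [ed_ncard, Nat.le_zero.1 hH]; simp
    have h2 : hd GG n H ≤ 0 := by
      refine hd_le zero_le_one ?_ hn H h1
      rintro z r ⟨b0, b1, b2, b3⟩
      have hz0 : 0 ≤ z := b0.trans b1
      have h3 : z ^ 2 = 0 := by
        have h4 : 0 ≤ 2 * r * (1 - z) := mul_nonneg (by linarith) (by linarith)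
        unfold be at b3
        have := sq_nonneg z
        linarith
      have h5 : z = 0 := by simpa using h3
      have h6 : r = 0 := by linarith
      rw [h5, h6, Fp_zero]
      unfold be; norm_num
    have h3 := (cd_le_hd GG n H).trans h2
    by_contra hne
    have h4 : 0 < cd GG n H := by
      unfold cd
      have := aut_pos GG
      have h5 : 0 < H.copyCount GG := Nat.pos_of_ne_zero hne
      positivity
    linarith
  constructor
  · refine IsBigO.of_bound 1 (Eventually.of_forall fun n => ?_)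
    beta_reduce
    rw [hz n, hbot n]
    simp
  · refine (IsEquivalent.refl (u := fun _ : ℕ => (0:ℝ))).congr_left ?_ |>.congr_right ?_
    · filter_upwards [eventually_gt_atTop 0] with n hn
      rw [hz n, hbot n, hzero n hn ⊥ (by simp)]; simp
    · filter_upwards [eventually_gt_atTop 0] with n hn
      rw [hz n]
      obtain ⟨H, h1, h2⟩ := (ex_spec n 0 G₀).1
      rw [h2, hzero n hn H h1]; simp

/-- **The graph `K_{2,8} ∪ K_{8,8}` is of type STK.** -/
theorem result : IsTypeSTK G₀ := by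
  obtain ⟨γ, δ, h1, h2, h3, ha, hb, hc, hd, he⟩ := phases padding
  have hxx : ∀ β : ℝ, 0 ≤ β → β ≤ 1 → 0 ≤ 1 - √(1 - β) ∧ 1 - √(1 - β) ≤ 1 ∧
      2 * (1 - √(1 - β)) - (1 - √(1 - β)) ^ 2 = β := by
    intro β k0 k1
    have k2 : √(1 - β) ^ 2 = 1 - β := Real.sq_sqrt (by linarith)
    have k3 : 0 ≤ √(1 - β) := Real.sqrt_nonneg _
    have k4 : √(1 - β) ≤ 1 := Real.sqrt_le_one.2 (by linarith)
    refine ⟨by linarith, by linarith, by linarith⟩
  refine ⟨γ, δ, h1, h2, h3, ?_, ?_, ?_, ?_⟩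
  · rintro β ⟨k0, k1⟩
    rcases k0.lt_or_eq with k0' | k0'
    · obtain ⟨x0, x1, x2⟩ := hxx β k0 (by linarith)
      obtain ⟨K, l1, l2⟩ := quasiStar_lim k0 (by linarith : β < 1)
      have hon := on_self x0 x1
      have hm : ∀ z r, On β z r → Fp z r ≤ Fp (1 - √(1 - β)) (1 - √(1 - β)) := by
        intro z r h
        refine ha _ z r x0 x1 (by rw [x2]; exact k1) ?_
        rw [x2]; exact h
      rw [x2] at hon
      exact (asymp_iff k0' (by linarith) hon hm l1 l2).2 rfl
    · subst k0'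
      exact zero_case
  · rintro β ⟨k0, k1⟩
    obtain ⟨z, r, hon, hr, hrz, hm⟩ := hb β k0 k1
    obtain ⟨t, ht, K, l1, l2⟩ := tGraph_lim (by linarith) hon hr hrz
    exact ⟨t, ht, (asymp_iff (by linarith) (by linarith) hon hm l1 l2).2 rfl⟩
  · rintro β ⟨k0, k1⟩
    have hβ : 0 < β := by linarith
    obtain ⟨l1, l2⟩ := quasiClique_lim hβ.le k1
    have hF : Fp (√β) 0 = β ^ 13 := by rw [Fp_zero, (on_zero hβ.le k1).2.2.2]
    refine (asymp_iff hβ k1 (on_zero hβ.le k1) ?_ l1 l2).2 hF.symm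
    intro z r h
    rw [hF]
    exact hc β z r k0 k1 h
  · rintro β ⟨k0, k1⟩
    have hβ : 0 < β := by linarith
    obtain ⟨z, r, hon, hr, hrz, hm⟩ := hb β k0.le k1.le
    constructor
    · intro hcon
      obtain ⟨x0, x1, x2⟩ := hxx β hβ.le (by linarith)
      obtain ⟨K, l1, l2⟩ := quasiStar_lim hβ.le (by linarith : β < 1)
      have h4 := (asymp_iff hβ (by linarith) hon hm l1 l2).1 hcon
      obtain ⟨z', r', h5, h6⟩ := hd _ x0 x1 (by rw [x2]; exact k0) (by rw [x2]; exact k1)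
      rw [x2] at h5
      have h7 := hm z' r' h5
      linarith
    · intro hcon
      obtain ⟨l1, l2⟩ := quasiClique_lim hβ.le (by linarith : β ≤ 1)
      have h4 := (asymp_iff hβ (by linarith) hon hm l1 l2).1 hcon
      obtain ⟨z', r', h5, h6⟩ := he β k0 k1
      have h7 := hm z' r' h5
      linarith

end Pool.Agent.Results.MP_8790d8_co.STKExists
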